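import Pool.Agent.H3.AM.Basic

/-!
# Every homomorphism on the centre of the modular group algebra comes from a character (module B3)
-/

open scoped Classical ComplexConjugate

namespace Pool.Agent.H14.EA

open AMc

/-- the group algebra element with given coefficients -/
noncomputable def elt {R Γ : Type} [CommRing R] [Fintype Γ] (y : Γ → R) : MonoidAlgebra R Γ :=
  MonoidAlgebra.ofCoeff (Finsupp.equivFunOnFinite.symm y)

theorem coeff_elt {R Γ : Type} [CommRing R] [Fintype Γ] (y : Γ → R) (g : Γ) :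
    (elt y).coeff g = y g := rfl

section chi

variable {Γ : Type} [Group Γ] [Fintype Γ] {N : Subgroup Γ} {φ : Γ → ℂ}

/-- central character -/
noncomputable def chi (φ : Γ → ℂ) (z : MonoidAlgebra ℂ Γ) : ℂ := (∑ g, z.coeff g * φ g) / φ 1

theorem chi_mul (h6 : T_S6) (hφ : φ ∈ IrrS N) (h1 : φ 1 ≠ 0) {z w : MonoidAlgebra ℂ Γ}
    (hz : z ∈ ZA ℂ N N) (hw : w ∈ ZA ℂ N N) : chi φ (z * w) = chi φ z * chi φ w := by
  have h := h6 Γ N φ hφ z hz w hw
  unfold chi
  rw [div_mul_div_comm, ← h]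
  field_simp

theorem chi_single (h1 : φ 1 ≠ 0) (a : ℂ) : chi φ (MonoidAlgebra.single 1 a) = a := by
  unfold chi
  rw [Finset.sum_eq_single 1]
  · rw [MonoidAlgebra.coeff_single, Finsupp.single_eq_same]
    field_simp
  · intro b _ hb
    rw [MonoidAlgebra.coeff_single, Finsupp.single_apply, if_neg (Ne.symm hb), zero_mul]
  · intro h; exact absurd (Finset.mem_univ _) h

theorem chi_sub (z w : MonoidAlgebra ℂ Γ) : chi φ (z - w) = chi φ z - chi φ w := by
  unfold chi
  rw [← sub_div, ← Finset.sum_sub_distrib]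
  congr 1
  refine Finset.sum_congr rfl fun g _ => ?_
  rw [MonoidAlgebra.coeff_sub, Finsupp.sub_apply]
  ring

theorem single_mem {R : Type} [CommRing R] (a : R) :
    (MonoidAlgebra.single 1 a : MonoidAlgebra R Γ) ∈ ZA R N N := by
  have h := (ZA R N N).algebraMap_mem a
  rwa [MonoidAlgebra.coe_algebraMap] at h

theorem chi_prod (h6 : T_S6) (hφ : φ ∈ IrrS N) (h1 : φ 1 ≠ 0) {y : MonoidAlgebra ℂ Γ}
    (hy : y ∈ ZA ℂ N N) (L : List ℂ) :
    (L.map fun a => y - MonoidAlgebra.single 1 a).prod ∈ ZA ℂ N N ∧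
    chi φ (L.map fun a => y - MonoidAlgebra.single 1 a).prod = (L.map fun a => chi φ y - a).prod := by
  induction L with
  | nil =>
    refine ⟨(ZA ℂ N N).one_mem, ?_⟩
    simp only [List.map_nil, List.prod_nil]
    rw [MonoidAlgebra.one_def]
    exact chi_single h1 1
  | cons a L ih =>
    have ha : y - MonoidAlgebra.single 1 a ∈ ZA ℂ N N := (ZA ℂ N N).sub_mem hy (single_mem a)
    simp only [List.map_cons, List.prod_cons]
    refine ⟨(ZA ℂ N N).mul_mem ha ih.1, ?_⟩
    rw [chi_mul h6 hφ h1 ha ih.1, ih.2, chi_sub, chi_single h1]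

end chi

theorem b3 (h1 : T_S1) (h3 : T_S3) (h6 : T_S6) (h9 : T_S9) (hB1 : T_B1) (hBL : T_BL) : T_B3 := by
  intro F _ π hπ ℓ _ _ Γ _ _ N h hh
  obtain ⟨fs, hfs, -⟩ := h9 Γ N
  by_contra hcon
  push Not at hcon
  -- the separating elements
  have hw : ∀ θ : fs, ∃ w : ZA F N N, h (w : MonoidAlgebra F Γ) = 1 ∧
      lam π (θ : Γ → ℂ) (w : MonoidAlgebra F Γ) = 0 := by
    rintro ⟨θ, hθ⟩
    obtain ⟨z, hz, hne⟩ := hcon θ ((hfs θ).1 hθ)
    have hl : CHom N (lam π θ) := hB1 F π hπ Γ N θ ((hfs θ).1 hθ)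
    have h1m : (1 : MonoidAlgebra F Γ) ∈ ZA F N N := (ZA F N N).one_mem
    have hcm : lam π θ z • (1 : MonoidAlgebra F Γ) ∈ ZA F N N := (ZA F N N).smul_mem h1m _
    have hdm : z - lam π θ z • (1 : MonoidAlgebra F Γ) ∈ ZA F N N := (ZA F N N).sub_mem hz hcm
    have hne' : h z - lam π θ z ≠ 0 := sub_ne_zero.2 hne
    refine ⟨⟨(h z - lam π θ z)⁻¹ • (z - lam π θ z • (1 : MonoidAlgebra F Γ)),
      (ZA F N N).smul_mem hdm _⟩, ?_, ?_⟩
    · show h ((h z - lam π θ z)⁻¹ • (z - lam π θ z • (1 : MonoidAlgebra F Γ))) = 1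
      rw [hh.map_smul _ _ hdm, hh.map_sub hz hcm, hh.map_smul _ _ h1m, hh.map_one, mul_one,
        inv_mul_cancel₀ hne']
    · show lam π θ ((h z - lam π θ z)⁻¹ • (z - lam π θ z • (1 : MonoidAlgebra F Γ))) = 0
      rw [hl.map_smul _ _ hdm, hl.map_sub hz hcm, hl.map_smul _ _ h1m, hl.map_one, mul_one,
        sub_self, mul_zero]
  choose w hw1 hw2 using hw
  set Z : ZA F N N := ∏ θ : fs, w θ with hZ
  have hZh : h (Z : MonoidAlgebra F Γ) = 1 := by
    rw [← hh.toRingHom_apply, hZ, map_prod]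
    exact Finset.prod_eq_one fun θ _ => hw1 θ
  have hZl : ∀ θ ∈ fs, lam π θ (Z : MonoidAlgebra F Γ) = 0 := by
    intro θ hθ
    have hl : CHom N (lam π θ) := hB1 F π hπ Γ N θ ((hfs θ).1 hθ)
    rw [← hl.toRingHom_apply, hZ, map_prod]
    exact Finset.prod_eq_zero (Finset.mem_univ (⟨θ, hθ⟩ : fs)) (hw2 ⟨θ, hθ⟩)
  -- an invariant lift
  set y : Γ → integralClosure ℤ ℂ := fun g =>
    if g ∈ N then Function.invFun π ((Z : MonoidAlgebra F Γ).coeff g) else 0 with hy
  have hyN : ∀ g, g ∉ N → y g = 0 := fun g hg => by rw [hy]; exact if_neg hg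
  have hyi : ∀ n ∈ N, ∀ g, y (n * g * n⁻¹) = y g := by
    intro n hn g
    have e : n * g * n⁻¹ ∈ N ↔ g ∈ N := by
      constructor
      · intro h2
        have h3 := N.mul_mem (N.mul_mem (N.inv_mem hn) h2) hn
        have e : n⁻¹ * (n * g * n⁻¹) * n = g := by group
        rwa [e] at h3
      · intro h2
        exact N.mul_mem (N.mul_mem hn h2) (N.inv_mem hn)
    rw [hy]
    simp only [e, Z.2.2 n hn g]
  have hyπ : ∀ g, π (y g) = (Z : MonoidAlgebra F Γ).coeff g := by
    intro g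
    by_cases hg : g ∈ N
    · rw [hy]
      simp only [if_pos hg]
      exact Function.rightInverse_invFun hπ _
    · rw [hyN g hg, map_zero, Z.2.1 g hg]
  have hbl : ∀ θ ∈ fs, ∃ o : integralClosure ℤ ℂ, (o : ℂ) = (∑ g, (y g : ℂ) * θ g) / θ 1 ∧ π o = 0 := by
    intro θ hθ
    have h2 := hBL F π hπ Γ N θ ((hfs θ).1 hθ) Z Z.2.2 y hyi (fun g _ => hyπ g)
    refine ⟨⟨_, h2.1⟩, rfl, ?_⟩
    rw [← rd_mk π h2.1, ← h2.2]
    exact hZl θ hθ
  choose! o ho1 ho2 using hbl
  set L : List (integralClosure ℤ ℂ) := fs.toList.map o with hL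
  set PA : MonoidAlgebra (integralClosure ℤ ℂ) Γ :=
    (L.map fun a => elt y - MonoidAlgebra.single 1 a).prod with hPA
  -- the complex side
  set ψC : MonoidAlgebra (integralClosure ℤ ℂ) Γ →+* MonoidAlgebra ℂ Γ :=
    MonoidAlgebra.mapRingHom Γ (algebraMap (integralClosure ℤ ℂ) ℂ) with hψC
  set ψF : MonoidAlgebra (integralClosure ℤ ℂ) Γ →+* MonoidAlgebra F Γ :=
    MonoidAlgebra.mapRingHom Γ π with hψF
  have hyC : (elt (fun g => (y g : ℂ)) : MonoidAlgebra ℂ Γ) ∈ ZA ℂ N N := by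
    refine ⟨fun g hg => ?_, fun u hu g => ?_⟩
    · rw [coeff_elt, hyN g hg]; rfl
    · rw [coeff_elt, coeff_elt, hyi u hu g]
  have hC1 : ψC (elt y) = elt fun g => (y g : ℂ) := by
    apply MonoidAlgebra.ext; ext g
    rw [hψC, MonoidAlgebra.coeff_mapRingHom]
    rfl
  set LC : List ℂ := fs.toList.map fun θ => ((o θ : integralClosure ℤ ℂ) : ℂ) with hLC
  have hC2 : ψC PA = (LC.map fun a : ℂ =>
      elt (fun g => (y g : ℂ)) - MonoidAlgebra.single 1 a).prod := by
    rw [hPA, map_list_prod, List.map_map, hL, List.map_map, hLC, List.map_map]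
    congr 1
    refine List.map_congr_left fun a _ => ?_
    simp only [Function.comp_apply]
    rw [map_sub, hC1, hψC, MonoidAlgebra.mapRingHom_single]
    rfl
  have hz : ∀ φ ∈ IrrS N, ∑ g, (ψC PA).coeff g * φ g = 0 := by
    intro φ hφ
    have hφ1 : φ 1 ≠ 0 := by
      obtain ⟨d, hd, hd1⟩ := (h1 Γ N φ hφ).2.2.1
      rw [hd1]
      exact_mod_cast hd.ne'
    have h2 := (chi_prod h6 hφ hφ1 hyC LC).2
    rw [← hC2] at h2
    have h4 : (LC.map fun a : ℂ => chi φ (elt fun g => (y g : ℂ)) - a).prod = 0 := by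
      rw [List.prod_eq_zero_iff]
      rw [hLC, List.map_map, List.mem_map]
      refine ⟨φ, Finset.mem_toList.2 ((hfs φ).2 hφ), ?_⟩
      simp only [Function.comp_apply]
      rw [ho1 φ ((hfs φ).2 hφ), sub_eq_zero]
      rfl
    rw [h4] at h2
    unfold chi at h2
    exact (div_eq_zero_iff.1 h2).resolve_right hφ1
  have hP : ψC PA ∈ ZA ℂ N N := by
    by_cases hne : (IrrS N).Nonempty
    · obtain ⟨φ, hφ⟩ := hne
      have hφ1 : φ 1 ≠ 0 := by
        obtain ⟨d, hd, hd1⟩ := (h1 Γ N φ hφ).2.2.1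
        rw [hd1]
        exact_mod_cast hd.ne'
      rw [hC2]
      exact (chi_prod h6 hφ hφ1 hyC LC).1
    · have : fs = ∅ := by
        refine Finset.eq_empty_of_forall_notMem fun θ hθ => hne ⟨θ, (hfs θ).1 hθ⟩
      rw [hC2, hLC, this]
      simp only [Finset.toList_empty, List.map_nil]
      exact (ZA ℂ N N).one_mem
  have hP0 : (fun g => conj ((ψC PA).coeff g)) = 0 := by
    refine h3 Γ N _ (fun g hg => ?_) (fun n hn g => ?_) fun θ hθ => ?_
    · rw [hP.1 g hg, map_zero]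
    · rw [hP.2 n hn g]
    · have := hz θ hθ
      rw [← map_eq_zero (starRingEnd ℂ), map_sum] at this
      rw [← this]
      refine Finset.sum_congr rfl fun g _ => ?_
      rw [map_mul]
  have hPA0 : PA = 0 := by
    apply MonoidAlgebra.ext; ext g
    have h2 := congrFun hP0 g
    have h4 : (ψC PA).coeff g = 0 := by
      simpa using h2
    rw [hψC, MonoidAlgebra.coeff_mapRingHom] at h4
    have h5 : ((PA.coeff g : integralClosure ℤ ℂ) : ℂ) = 0 := h4
    simpa using h5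
  -- the modular side
  have hF1 : ψF (elt y) = (Z : MonoidAlgebra F Γ) := by
    apply MonoidAlgebra.ext; ext g
    rw [hψF, MonoidAlgebra.coeff_mapRingHom]
    exact hyπ g
  have hF2 : ψF PA = (Z : MonoidAlgebra F Γ) ^ fs.card := by
    rw [hPA, map_list_prod, List.map_map, hL, List.map_map]
    have : (fs.toList.map ((ψF ∘ fun a => elt y - MonoidAlgebra.single 1 a) ∘ o)) =
        fs.toList.map fun _ => (Z : MonoidAlgebra F Γ) := by
      refine List.map_congr_left fun θ hθ => ?_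
      simp only [Function.comp_apply]
      rw [map_sub, hF1, hψF, MonoidAlgebra.mapRingHom_single, ho2 θ (Finset.mem_toList.1 hθ)]
      simp
    rw [this, List.map_const', List.prod_replicate, Finset.length_toList]
  rw [hPA0, map_zero] at hF2
  have h7 := hh.map_pow Z.2 fs.card
  rw [← hF2, hh.map_zero, hZh, one_pow] at h7
  exact zero_ne_one h7

end Pool.Agent.H14.EA
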